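import Pool.Agent.Helper18.FM.GoalsA
import Pool.Agent.Helper27.TRB.Seq

/-!
# FM (MP_97d78d_ag): FEX and FFM

FFM: the form `χ` is closed, the twisted background is in the family.  FEX: existence of the twisted Kähler–Einstein metrics for
every background; `c = 0`: `XDat` for `gS σ h`, change of the background and `XEX`; `c > 0`: the metric `ε H' + χ/c` is in the
class of `rho H + ε H'`.
-/

open Complex Metric Set Filter Topology MeasureTheory
open scoped ContDiff ComplexConjugate ComplexOrder Manifold Matrix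

namespace Pool.Agent.Helper34.FM.FEX

open Pool.Agent.Helper95.Lin Pool.Agent.Helper16.Abund Pool.Agent.Helper92.Orb
  Pool.Agent.Helper10.SP Pool.Agent.Helper95.RK Pool.Agent.Helper57.HS
  Pool.Agent.Helper15.HS Pool.Agent.Helper15.GS Pool.Agent.Helper57.RBC Pool.Agent.Helper82.HB
  Pool.Agent.Helper57.HX Pool.Agent.Helper16.HS.AYTP
open Pool.Agent.Helper18.FM
open Pool.Agent.Helper27.TRB (tw smul_tw chf_congr)

universe u

section

variable {n m : ℕ} {T : Set (Cn n)} {G : Type u} [Group G] {R : G → Cn n → Cn n → Prop}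
  {H χ : Cn n → Matrix (Fin n) (Fin n) ℂ} {σ : Cn n → Matrix (Fin n) (Fin m) ℂ}
  {h : Cn n → Matrix (Fin m) (Fin m) ℂ} {c : ℝ} {ψ : Cn n → ℝ}

theorem invF_smul {φ : Cn n → ℝ} (hφ : InvF T R φ) (a : ℝ) : InvF T R (fun x => a * φ x) := by
  refine ⟨contDiffOn_const.mul hφ.1, fun γ x y hR => ?_⟩
  have h1 := hφ.2 γ x y hR
  simp only
  rw [h1]

theorem chi_chf (hRHOI : S_RHOI.{u}) (D : FDat T R H σ h χ c ψ) : CHF χ T := by
  have hT := D.ket.et.isOpen
  obtain ⟨hr1, hr2, -, hr4, -⟩ := hRHOI T R H D.ket.et (her_ket D.ket)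
  obtain ⟨hp1, hp2⟩ := hr4 (fun y => c * ψ y) (invF_smul D.psi c)
  exact chf_congr hT (fun x hx => (D.chi' x hx).symm)
    (Pool.Agent.Helper97.HS.chf_ad hT (Pool.Agent.Helper97.HS.chf_sm hT hr1 c) hp1)

/-- Adding a closed invariant semidefinite form to a Kähler metric. -/
theorem ket_twa (hRHOI : S_RHOI.{u}) (D : FDat T R H σ h χ c ψ)
    {H' : Cn n → Matrix (Fin n) (Fin n) ℂ} (hH' : KEt T R H') {a : ℝ} (ha : 0 ≤ a) :
    KEt T R (fun x => H' x + (a : ℂ) • χ x) :=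
  Pool.Agent.Helper61.GS.ket_add hH'
    (Pool.Agent.Helper97.HS.chf_sm D.ket.et.isOpen (chi_chf hRHOI D) a)
    (Pool.Agent.Helper97.HS.invH_sm D.pf.inv (a : ℂ))
    fun x hx => (D.pf.psd x hx).smul (Complex.zero_le_real.2 ha)

end

/-- FFM. -/
theorem t_FFM (hWIRT : S_WIRT) (hRHOI : S_RHOI.{u}) : S_FFM.{u} := by
  intro n m T G _ R H σ h χ c ψ D
  have hT := D.ket.et.isOpen
  refine ⟨chi_chf hRHOI D, fun H' ε hH' hε => ⟨?_, fun x => smul_tw χ H' hε x⟩,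
    fun N φ H' hF ε hε => ⟨?_, ?_, ?_, ?_⟩⟩
  · exact ket_twa hRHOI D hH' (inv_pos.2 hε).le
  · exact ket_twa hRHOI D hF.ket (inv_pos.2 hε).le
  · have h1 := hF.nn
    have h2 := D.c0
    positivity
  · refine ⟨hF.inv.1.add (contDiffOn_const.mul (contDiffOn_const.mul D.psi.1)),
      fun γ x y hR => ?_⟩
    have h0 := hF.inv.2 γ x y hR
    have h1 := D.psi.2 γ x y hR
    simp only
    rw [h0, h1]
  · intro x hx
    have e1 : (fun y => φ y + ε⁻¹ * (c * ψ y)) = fun y => 1 * φ y + ε⁻¹ * (c * ψ y) := by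
      funext y; ring
    rw [e1, Pool.Agent.Helper94.HS.LM_lin hWIRT hT hF.inv.1 (contDiffOn_const.mul D.psi.1) 1 ε⁻¹
      hx]
    unfold tw
    rw [hF.eq x hx, D.chi' x hx]
    push_cast
    module

/-- The data of the degenerate case for `c = 0`. -/
theorem xdat (hFCL : S_FCL.{u}) (hFLG : S_FLG.{u}) {n m : ℕ} {T : Set (Cn n)} {G : Type u}
    [Group G] {R : G → Cn n → Cn n → Prop} {H χ : Cn n → Matrix (Fin n) (Fin n) ℂ}
    {σ : Cn n → Matrix (Fin n) (Fin m) ℂ} {h : Cn n → Matrix (Fin m) (Fin m) ℂ}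
    {ψ : Cn n → ℝ} (D : FDat T R H σ h χ 0 ψ) : XDat T R H (gS σ h) ψ := by
  have hχ : ∀ x ∈ T, χ x = 0 := by
    intro x hx
    rw [D.chi x hx, Complex.ofReal_zero, zero_smul]
  have hNK : ∀ x ∈ T, ∀ Q : Cn n → Matrix (Fin n) (Fin n) ℂ, KEt T R Q → 0 ≤ NKs σ h Q x := by
    intro x hx Q hQ
    have h1 := D.trb x hx (Q x)⁻¹ (hQ.posDef x hx).posSemidef.inv
    rw [hχ x hx, Matrix.zero_mul, Matrix.zero_mul, Matrix.zero_mul, Matrix.trace_zero,
      Complex.zero_re, add_zero] at h1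
    exact h1
  obtain ⟨f1, -, -, -, -, f2⟩ := hFCL T R σ h D.sf H (fun x => H x - rho H x) D.ket
    (fun x _ => by abel)
  refine ⟨D.ket, fun x hx => (f2 x hx).1, f1, D.sf.inv, D.psi, D.pos, fun Q hQ x hx => ?_,
    fun Q hQ hle x hx => ?_⟩
  · obtain ⟨-, -, -, -, -, g2⟩ := hFCL T R σ h D.sf Q (fun x => Q x - rho Q x) hQ
      (fun x _ => by abel)
    obtain ⟨-, -, q3, -, -, q6, -⟩ := g2 x hx
    have hQp := hQ.posDef x hx
    have hu : IsUnit (Q x).det := (Matrix.isUnit_iff_isUnit_det _).1 hQp.isUnit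
    have h1 : (Matrix.trace ((Q x - rho Q x) * (Q x)⁻¹ * gS σ h x * (Q x)⁻¹)).re =
        tS σ h Q x - (Matrix.trace (rho Q x * (Q x)⁻¹ * gS σ h x * (Q x)⁻¹)).re := by
      rw [Matrix.sub_mul, Matrix.sub_mul, Matrix.sub_mul, Matrix.trace_sub,
        Matrix.mul_nonsing_inv _ hu, Matrix.one_mul, Complex.sub_re]
      rfl
    have h2 := hNK x hx Q hQ
    have h3 : (trL Q (fun y => (Matrix.trace (gS σ h y * (Q y)⁻¹)).re) x).re =
        (trL Q (tS σ h Q) x).re := rfl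
    rw [h3, q6]
    rw [h1]
    linarith
  · have h1 := (hFLG T R σ h χ D.sf D.trb Q (fun x => Q x - rho Q x) hQ (fun y hy => by
      rw [hχ y hy, sub_zero]
      exact hle y hy) (fun x _ => by abel)).2 1 one_pos
    exact h1.2 x hx

/-- FEX. -/
theorem t_FEX (hAYG : S_AYG.{u}) (hWIRT : S_WIRT) (hRHOI : S_RHOI.{u}) (hFCL : S_FCL.{u})
    (hFLG : S_FLG.{u}) (hXBG : S_XBG.{u}) (hXEX : S_XEX.{u}) : S_FEX.{u} := by
  intro n m T G _ R H σ h χ c ψ D H' hH' ε hε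
  have hT := D.ket.et.isOpen
  rcases D.c0.eq_or_lt with h0 | h0
  · subst h0
    exact hXEX T R H' (gS σ h) _ (hXBG T R H (gS σ h) ψ (xdat hFCL hFLG D) H' hH') ε hε
  · have hX : KEt T R fun x => (ε : ℂ) • H' x + ((c⁻¹ : ℝ) : ℂ) • χ x :=
      ket_twa hRHOI D (ket_smul hH' hε) (inv_pos.2 h0).le
    obtain ⟨Q, hQ, hQe⟩ := of_pot hAYG hWIRT hRHOI (B := H)
      (X₀ := fun x => (ε : ℂ) • H' x) D.ket hX D.psi (fun x hx => by
        rw [D.chi x hx, smul_smul, ← Complex.ofReal_mul, inv_mul_cancel₀ h0.ne',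
          Complex.ofReal_one, one_smul]
        abel)
    exact ⟨Q, hQ, hQe⟩

end Pool.Agent.Helper34.FM.FEX
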